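import Pool.Agent.helper17.EXC.Spec

set_option autoImplicit false

open Finset

namespace Pool.Agent.EXC

/-- powers of a product in a group of class two -/
theorem PEL_grp {G : Type*} [Group G] (g h z : G) (hgh : g * h = h * g * z) (hgz : g * z = z * g) (hhz : h * z = z * h)
    (N : ℕ) : (h * g) ^ N = h ^ N * g ^ N * z ^ (N.choose 2) := by
  have cg : Commute g z := hgz
  have ch : Commute h z := hhz
  have key : ∀ N : ℕ, g ^ N * h = h * g ^ N * z ^ N := by
    intro N
    induction N with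
    | zero => simp
    | succ N ih =>
      have e1 : z ^ N * g = g * z ^ N := (cg.pow_right N).symm
      calc g ^ (N + 1) * h = g ^ N * (g * h) := by rw [pow_succ, mul_assoc]
        _ = (g ^ N * h) * (g * z) := by rw [hgh]; simp only [mul_assoc]
        _ = h * g ^ N * (z ^ N * g) * z := by rw [ih]; simp only [mul_assoc]
        _ = h * (g ^ N * g) * (z ^ N * z) := by rw [e1]; simp only [mul_assoc]
        _ = h * g ^ (N + 1) * z ^ (N + 1) := by rw [← pow_succ, ← pow_succ]
  induction N with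
  | zero => simp
  | succ N ih =>
    have e1 : z ^ (N.choose 2) * h = h * z ^ (N.choose 2) := (ch.pow_right _).symm
    have e2 : z ^ (N.choose 2) * g = g * z ^ (N.choose 2) := (cg.pow_right _).symm
    have e3 : z ^ N * g = g * z ^ N := (cg.pow_right _).symm
    have e4 : (N + 1).choose 2 = N + N.choose 2 := by
      rw [Nat.choose_succ_succ' N 1, Nat.choose_one_right]
    calc (h * g) ^ (N + 1) = h ^ N * g ^ N * z ^ (N.choose 2) * (h * g) := by rw [pow_succ, ih]
      _ = h ^ N * g ^ N * (z ^ (N.choose 2) * h) * g := by simp only [mul_assoc]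
      _ = h ^ N * (g ^ N * h) * (z ^ (N.choose 2) * g) := by rw [e1]; simp only [mul_assoc]
      _ = h ^ N * h * g ^ N * (z ^ N * g) * z ^ (N.choose 2) := by rw [key, e2]; simp only [mul_assoc]
      _ = (h ^ N * h) * (g ^ N * g) * (z ^ N * z ^ (N.choose 2)) := by rw [e3]; simp only [mul_assoc]
      _ = h ^ (N + 1) * g ^ (N + 1) * z ^ ((N + 1).choose 2) := by rw [← pow_succ, ← pow_succ, ← pow_add, e4]

theorem PEL_xe_smul {n : ℕ} (C : Matrix (Fin n) (Fin n) ℤ) [IsC C] {F : Type} [Field F] (a : Lm C F) (c t : F) (v : Lm C F) :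
    xe C (c • a) t v = xe C a (c * t) v := by
  unfold xe
  rw [br_smul_left, fm_smul_left]
  module

theorem PEL_xe_zero {n : ℕ} (C : Matrix (Fin n) (Fin n) ℤ) [IsC C] {F : Type} [Field F] (a : Lm C F) (v : Lm C F) :
    xe C a 0 v = v := by
  unfold xe
  simp

theorem PEL (hEXF : EXF_stmt) (hACT : ACT_stmt) (hCOL : COL_stmt) (hTPF : TPF_stmt) : PEL_stmt := by
  intro n C _ F _ θ hθ hnb p hp hchar a b m hT hm g h hgx hhx
  obtain ⟨s, hg⟩ := hgx
  obtain ⟨t, hh⟩ := hhx
  obtain ⟨hAu, hEx, hx, -⟩ := hEXF n C F hnb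
  obtain ⟨hExa, hExb, -⟩ := hTPF n C F θ hθ hnb a b m hT
  obtain ⟨k, hk, β, hβ, hm', c, c', hc, hc', hka, hkb⟩ := hT
  have hp0 : (p : F) = 0 := CharP.cast_eq_zero F p
  -- powers of root elements
  have hpow : ∀ α, ip C α α = 2 → ∀ (r : F) (x : Lm C F ≃ₗ[F] Lm C F), IsX C (E C α) r x → x ^ p = 1 := by
    intro α hα r x hxr
    obtain ⟨-, -, -, -, -, -, -, -, hadd⟩ := hx (E C α) (hEx α hα)
    have h1 : ∀ N : ℕ, IsX C (E C α) ((N : F) * r) (x ^ N) := by
      intro N
      induction N with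
      | zero =>
        intro v
        rw [Nat.cast_zero, zero_mul, PEL_xe_zero, pow_zero]
        rfl
      | succ N ih =>
        have h2 := hadd _ _ _ _ ih hxr
        rw [← pow_succ] at h2
        have e : ((N + 1 : ℕ) : F) * r = (N : F) * r + r := by push_cast; ring
        rw [e]
        exact h2
    refine LinearEquiv.ext fun v => ?_
    have h3 := h1 p v
    rw [hp0, zero_mul, PEL_xe_zero] at h3
    rw [h3]
    rfl
  -- conjugation
  have hG : IsX C (E C θ) (c * s) (k * g * k⁻¹) := by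
    obtain ⟨-, -, -, -, -, -, -, hconj, -⟩ := hx a hExa
    have h1 := hconj k hk s g hg
    rw [hka] at h1
    intro v
    rw [h1 v, PEL_xe_smul]
  have hH : IsX C (E C β) (c' * t) (k * h * k⁻¹) := by
    obtain ⟨-, -, -, -, -, -, -, hconj, -⟩ := hx b hExb
    have h1 := hconj k hk t h hh
    rw [hkb] at h1
    intro v
    rw [h1 v, PEL_xe_smul]
  set G := k * g * k⁻¹ with hGdef
  set H := k * h * k⁻¹ with hHdef
  have hred : (H * G) ^ (p ^ 2) = 1 → (h * g) ^ (p ^ 2) = 1 := by
    intro h1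
    have e : H * G = k * (h * g) * k⁻¹ := by rw [hGdef, hHdef]; group
    rw [e, conj_pow] at h1
    have h2 := mul_inv_eq_one.1 h1
    have h3 : k * (h * g) ^ (p ^ 2) = k * 1 := by rw [h2, mul_one]
    exact mul_left_cancel h3
  apply hred
  have hGp := hpow θ hθ _ _ hG
  have hHp := hpow β hβ _ _ hH
  have hGp2 : G ^ (p ^ 2) = 1 := by rw [pow_two, pow_mul, hGp, one_pow]
  have hHp2 : H ^ (p ^ 2) = 1 := by rw [pow_two, pow_mul, hHp, one_pow]
  have hb := ip_abs_le hθ hβ
  rcases le_or_gt 0 (ip C θ β) with h0 | h0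
  · -- commuting
    have hcm := (hCOL n C F θ β hθ hβ).2 h0
    have hc : Commute H G := by
      refine LinearEquiv.ext fun v => ?_
      have e1 : (H * G) v = xe C (E C β) (c' * t) (xe C (E C θ) (c * s) v) := by
        rw [← hG v, ← hH]; rfl
      have e2 : (G * H) v = xe C (E C θ) (c * s) (xe C (E C β) (c' * t) v) := by
        rw [← hH v, ← hG]; rfl
      rw [e1, e2, hcm]
    rw [hc.mul_pow, hHp2, hGp2, mul_one]
  · -- the commutator is in the root group of `θ + β`
    have hm1 : ip C θ β = -1 := by omega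
    have hr : ip C (θ + β) (θ + β) = 2 := (add_root_iff hθ hβ).2 hm1
    have i1 : ip C θ (θ + β) = 1 := by rw [ip_add_right, hθ, hm1]; norm_num
    have i2 : ip C β (θ + β) = 1 := by rw [ip_add_right, hβ, ip_comm, hm1]; norm_num
    obtain ⟨-, -, -, -, hexi, hmem, -, -, -⟩ := hx (E C θ) (hEx θ hθ)
    have hGm : G ∈ GE C F := hmem G ⟨_, hG⟩
    obtain ⟨-, -, -, -, hexi', -, -, -, -⟩ := hx (E C (θ + β)) (hEx _ hr)
    obtain ⟨Z, hZm, hZ⟩ := hexi' (c * s * (sg C θ β : F) * (c' * t))
    obtain ⟨-, -, -, -, -, -, -, hconj, -⟩ := hx (E C β) (hEx β hβ)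
    have h1 := hconj G hGm _ _ hH
    have h2 : G (E C β) = (E C β + (c * s * (sg C θ β : F)) • E C (θ + β) : Lm C F) := by
      rw [hG]
      exact (hACT n C F θ (c * s) hθ).2.1 β hβ hm1
    rw [h2] at h1
    have h3 := ((hCOL n C F β (θ + β) hβ hr).1 i2).1 1 (c * s * (sg C θ β : F)) (c' * t)
    have h4 : G * H * G⁻¹ = H * Z := by
      refine LinearEquiv.ext fun v => ?_
      have e1 : (H * Z) v = xe C (E C β) (c' * t) (xe C (E C (θ + β)) (c * s * (sg C θ β : F) * (c' * t)) v) := by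
        rw [← hZ v, ← hH]; rfl
      have h5 := h3 v
      rw [one_smul, one_mul] at h5
      rw [h1 v, h5, e1]
    have hGZ : G * Z = Z * G := by
      have hcm := (hCOL n C F θ (θ + β) hθ hr).2 (by rw [i1]; norm_num)
      refine LinearEquiv.ext fun v => ?_
      have e1 : (G * Z) v = xe C (E C θ) (c * s) (xe C (E C (θ + β)) (c * s * (sg C θ β : F) * (c' * t)) v) := by
        rw [← hZ v, ← hG]; rfl
      have e2 : (Z * G) v = xe C (E C (θ + β)) (c * s * (sg C θ β : F) * (c' * t)) (xe C (E C θ) (c * s) v) := by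
        rw [← hG v, ← hZ]; rfl
      rw [e1, e2, hcm]
    have hHZ : H * Z = Z * H := by
      have hcm := (hCOL n C F β (θ + β) hβ hr).2 (by rw [i2]; norm_num)
      refine LinearEquiv.ext fun v => ?_
      have e1 : (H * Z) v = xe C (E C β) (c' * t) (xe C (E C (θ + β)) (c * s * (sg C θ β : F) * (c' * t)) v) := by
        rw [← hZ v, ← hH]; rfl
      have e2 : (Z * H) v = xe C (E C (θ + β)) (c * s * (sg C θ β : F) * (c' * t)) (xe C (E C β) (c' * t) v) := by
        rw [← hH v, ← hZ]; rfl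
      rw [e1, e2, hcm]
    have hGH : G * H = H * G * Z := by
      have h6 : G * H = H * Z * G := by rw [← h4]; group
      rw [h6, mul_assoc, ← hGZ, ← mul_assoc]
    have hZp := hpow _ hr _ _ hZ
    have hdvd : p ∣ (p ^ 2).choose 2 := by
      refine hp.dvd_choose_pow (by norm_num) ?_
      have := hp.two_le
      nlinarith
    obtain ⟨j, hj⟩ := hdvd
    rw [PEL_grp G H Z hGH hGZ hHZ, hHp2, hGp2, hj, pow_mul, hZp, one_pow, mul_one, mul_one]

end Pool.Agent.EXC
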