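import Pool.Agent.helper32.EXC.Spec11

set_option autoImplicit false

open Finset

namespace Pool.Agent.EXC

theorem T11TR8_sum {n : ℕ} (C : Matrix (Fin n) (Fin n) ℤ) [IsC C] {F : Type} [Field F] (a : Lm C F) (t : F)
    {m : ℕ} (v : Fin m → F) (w : Fin m → Lm C F) :
    xe C a t (∑ i, v i • w i) = ∑ i, v i • xe C a t (w i) := by
  have hadd : ∀ x y : Lm C F, xe C a t (x + y) = xe C a t x + xe C a t y := by
    intro x y
    unfold xe
    rw [br_add_right, fm_add_right, smul_add, mul_add, add_smul]
    abel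
  have hsmul : ∀ (c : F) (x : Lm C F), xe C a t (c • x) = c • xe C a t x := by
    intro c x
    unfold xe
    rw [br_smul_right, fm_smul_right, smul_add, smul_add, smul_smul, smul_smul, smul_smul, mul_comm t c]
    congr 2
    ring
  let L : Lm C F →ₗ[F] Lm C F :=
    { toFun := xe C a t
      map_add' := hadd
      map_smul' := fun c x => hsmul c x }
  have h : L (∑ i, v i • w i) = ∑ i, v i • L (w i) := by
    rw [map_sum]
    exact Finset.sum_congr rfl fun i _ => map_smul L _ _
  exact h

theorem T11TR8 (hACT : ACT_stmt) : T11TR8_stmt := by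
  intro _ F _ j t v
  unfold em8
  rw [T11TR8_sum]
  refine Finset.sum_congr rfl fun i _ => ?_
  rw [(hACT 8 CartanMatrix.E₈ F (mu8 j) t (mu8_root j)).1 (mu8 i) (mu8_root i) (mu8_ip j i)]

end Pool.Agent.EXC
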